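import Pool.Agent.Helper472_HK.Refl

/-!
Twisted forms of the skeleton of a maximally degenerate generalised Kummer variety are not complex
projective spaces.

The essential skeleton of a maximally degenerate generalised Kummer variety of dimension `2 n` is the
space of unordered families of `n + 1` points with sum zero on the torus `(ℝ/ℤ)²`.  The automorphisms
of the variety which act trivially on the second cohomology act on it through the maps
`t ↦ ε t + τ`, where `ε = ±1` and `(n + 1) τ = 0`.  We show that the quotient of this space by such a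
nontrivial map is not a topological manifold of dimension `2 n`, and in particular it is not
homeomorphic to the complex projective space of dimension `n`.
-/

set_option autoImplicit false

namespace Pool.Agent.Results.MP_ba9c6b_ag.TwistedKummer

open Pool.Agent.Helper472_HK Module

theorem noChart {n : ℕ} (hn : 2 ≤ n) (ε : ℤˣ) (τ : Tor) (hτ : (n + 1) • τ = 0)
    (h : ¬(ε = 1 ∧ τ = 0)) : NoChart n ε τ := by
  rcases Int.units_eq_one_or ε with rfl | rfl
  · exact noChart_trans hn hτ (fun h0 => h ⟨rfl, h0⟩)
  · exact noChart_refl hn hτ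

/-- For `n ≥ 2`, `ε = ±1` and `τ` in the torus `(ℝ/ℤ)²` with `(n + 1) τ = 0` and
`(ε, τ) ≠ (1, 0)`, the quotient of the space of families of `n + 1` points of the torus with sum
zero by the permutations and by the powers of `t ↦ ε t + τ` is not a topological manifold of
dimension `2 n`, and it is not homeomorphic to the complex projective space of dimension `n`. -/
theorem result (n : ℕ) (hn : 2 ≤ n) (ε : ℤˣ) (τ : Tor) (hτ : (n + 1) • τ = 0)
    (h : ¬(ε = 1 ∧ τ = 0)) :
    IsEmpty (ChartedSpace (EuclideanSpace ℝ (Fin (2 * n))) (TwSk n ε τ)) ∧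
      IsEmpty (TwSk n ε τ ≃ₜ CPn n) := by
  obtain ⟨q, hq⟩ := noChart hn ε τ hτ h
  refine ⟨⟨fun C => ?_⟩, ⟨fun φ => ?_⟩⟩
  · exact hq (EuclideanSpace ℝ (Fin (2 * n))) finrank_euclideanSpace_fin
      (C.chartAt q) (C.mem_chart_source q)
  · obtain ⟨χ, hχ⟩ := cp_charts n (φ q)
    refine hq (Fin n → ℂ) (finrank_chart n) (φ.toOpenPartialHomeomorph.trans χ) ?_
    rw [OpenPartialHomeomorph.trans_source]
    exact ⟨Set.mem_univ _, hχ⟩

end Pool.Agent.Results.MP_ba9c6b_ag.TwistedKummer
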